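import Pool.Agent.Helper53.FL.Contr
import Pool.Agent.Helper85.FL.FL3

/-!
# FL-8: the last vertex map is a weak equivalence
-/

open CategoryTheory MonoidalCategory Opposite HomotopicalAlgebra Limits

set_option autoImplicit false

namespace Helper53FL

open FL

theorem weFacts : WEFacts where
  iff_lift := fun i _ => Helper85FL.we_iff_lift i
  of_hoEq := Helper85FL.we_of_hoEq
  comp := Helper85FL.we_comp
  comp_left := Helper85FL.we_of_comp_left
  comp_right := Helper85FL.we_of_comp_right

/-- The last vertex map `N(Δ/K) ⟶ K` is a weak homotopy equivalence. -/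
theorem lastMap_we (K : SSet.{0}) : WE (lastMap K) := lastMap_we_of weFacts K

end Helper53FL
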