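import Pool.Agent.Helper53.FL.NvIso

/-!
# Contractibility of simplices and of nerves of categories with terminal objects
-/

open CategoryTheory MonoidalCategory Opposite HomotopicalAlgebra Limits

set_option autoImplicit false
set_option linter.unusedVariables false

namespace Helper53FL

open FL

/-- The interval. -/
abbrev I1 : SSet.{0} := SSet.stdSimplex.{0}.obj (SimplexCategory.mk 1)

lemma htpy_whisker {X Y Z T : SSet.{0}} {f g : X ⟶ Y} (h : Htpy f g) (a : Z ⟶ X) (b : Y ⟶ T) :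
    Htpy (a ≫ f ≫ b) (a ≫ g ≫ b) := by
  obtain ⟨H⟩ := h
  refine ⟨mkHtpy (a ▷ I1 ≫ H.h ≫ b) ?_ ?_⟩
  · have h0 : SSet.ι₀ ≫ H.h = f := H.h₀
    calc SSet.ι₀ ≫ a ▷ I1 ≫ H.h ≫ b = a ≫ (SSet.ι₀ ≫ H.h) ≫ b := rfl
      _ = _ := by rw [h0]
  · have h1 : SSet.ι₁ ≫ H.h = g := H.h₁
    calc SSet.ι₁ ≫ a ▷ I1 ≫ H.h ≫ b = a ≫ (SSet.ι₁ ≫ H.h) ≫ b := rfl
      _ = _ := by rw [h1]

lemma hoEq_of_retract {X Y : SSet.{0}} {u : X ⟶ Y} {v : Y ⟶ X} (h : v ≫ u = 𝟙 Y)
    (huv : HoEq (u ≫ v)) : HoEq v := by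
  obtain ⟨w, h1, h2⟩ := huv
  refine ⟨w ≫ u, ?_, ?_⟩
  · have h3 := htpy_whisker h1 v u
    have e1 : v ≫ ((u ≫ v) ≫ w) ≫ u = v ≫ w ≫ u := by
      simp only [← Category.assoc]
      rw [h, Category.id_comp]
    rw [e1, Category.id_comp, h] at h3
    exact h3
  · have e : (w ≫ u) ≫ v = w ≫ u ≫ v := Category.assoc _ _ _
    rw [e]
    exact h2

/-- The minimum `Δ[1] × Δ[1] ⟶ Δ[1]`. -/
def minS {k : SimplexCategoryᵒᵖ} (s t : I1.obj k) : I1.obj k :=
  SSet.stdSimplex.objEquiv.symm (SimplexCategory.Hom.mk (oh s ⊓ oh t))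

lemma fst_hoEq (X : SSet.{0}) : HoEq (CartesianMonoidalCategory.fst X I1) := by
  refine ⟨SSet.ι₀, ⟨mkHtpy (X := X ⊗ I1) (Y := X ⊗ I1)
    { app := fun k => ↾ fun (y : (X.obj k × I1.obj k) × I1.obj k) =>
        (show X.obj k × I1.obj k from (y.1.1, minS y.1.2 y.2))
      naturality := fun k l α => rfl } ?_ ?_⟩, htpy_rfl _⟩
  · refine ss_ext fun k (y : X.obj k × I1.obj k) => ?_
    refine Prod.ext rfl ?_
    apply SSet.stdSimplex.objEquiv.injective
    refine (Equiv.apply_symm_apply _ _).trans ?_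
    ext i
    exact congrArg Fin.val (inf_eq_right.2 (Fin.zero_le (oh y.2 i)))
  · refine ss_ext fun k (y : X.obj k × I1.obj k) => ?_
    refine Prod.ext rfl ?_
    apply SSet.stdSimplex.objEquiv.injective
    refine (Equiv.apply_symm_apply _ _).trans ?_
    ext i
    exact congrArg Fin.val (inf_eq_left.2 (Fin.le_last (oh y.2 i)))

lemma we_of_contr (W : WEFacts) {X Y : SSet.{0}} (c : X ⟶ Y) (x : Y ⟶ X) (h : x ≫ c = 𝟙 Y)
    (H : Htpy (𝟙 X) (c ≫ x)) : WE c := by
  have hid : WE (𝟙 X) := W.of_hoEq ⟨𝟙 X, by rw [Category.comp_id]; exact htpy_rfl _,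
    by rw [Category.comp_id]; exact htpy_rfl _⟩
  have h0 : WE (SSet.ι₀ (X := X)) :=
    W.comp_right (g := CartesianMonoidalCategory.fst X I1) (W.of_hoEq (fst_hoEq X)) hid
  have h1 : WE (SSet.ι₁ (X := X)) :=
    W.comp_right (g := CartesianMonoidalCategory.fst X I1) (W.of_hoEq (fst_hoEq X)) hid
  obtain ⟨H⟩ := H
  have hH : WE H.h := W.comp_left h0 (by rw [show SSet.ι₀ ≫ H.h = 𝟙 X from H.h₀]; exact hid)
  have he : WE (c ≫ x) := by
    have := W.comp h1 hH
    rwa [show SSet.ι₁ ≫ H.h = c ≫ x from H.h₁] at this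
  intro K hK
  refine hoEq_of_retract (u := (MonoidalClosed.pre x).app K) ?_ ?_
  · rw [← NatTrans.comp_app, ← MonoidalClosed.pre_map, h, MonoidalClosed.pre_id]; rfl
  · rw [← NatTrans.comp_app, ← MonoidalClosed.pre_map]; exact he K hK

/-- The point. -/
def pt : SSet.{0} where
  obj _ := PUnit
  map _ := 𝟙 _

/-- The map to the point. -/
def toPt (X : SSet.{0}) : X ⟶ pt where
  app k := ↾ fun _ => PUnit.unit
  naturality k l α := rfl

lemma pt_ext {X : SSet.{0}} (f g : X ⟶ pt) : f = g := ss_ext fun _ _ => rfl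

/-- The contraction of a simplex. -/
def ctr {m k : SimplexCategory} (g : Fin (k.len + 1) →o Fin (m.len + 1))
    (t : Fin (k.len + 1) →o Fin 2) : Fin (k.len + 1) →o Fin (m.len + 1) where
  toFun i := if t i = 0 then 0 else g i
  monotone' i j h := by
    by_cases hi : t i = 0
    · simp [hi]
    · have hj : ¬ t j = 0 := fun hj => by
        have := t.monotone h
        rw [hj] at this
        exact hi (le_antisymm this (Fin.zero_le _))
      simp only [hi, hj, if_false]
      exact g.monotone h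

lemma ctr_zero {m k : SimplexCategory} (g : Fin (k.len + 1) →o Fin (m.len + 1))
    (t : Fin (k.len + 1) →o Fin 2) (i : Fin (k.len + 1)) (h : t i = 0) : ctr g t i = 0 := if_pos h

lemma ctr_one {m k : SimplexCategory} (g : Fin (k.len + 1) →o Fin (m.len + 1))
    (t : Fin (k.len + 1) →o Fin 2) (i : Fin (k.len + 1)) (h : t i = 1) : ctr g t i = g i :=
  if_neg (by rw [h]; decide)

/-- The initial vertex. -/
def vert0 (m : SimplexCategory) : pt ⟶ SSet.stdSimplex.{0}.obj m where
  app k := ↾ fun _ =>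
    SSet.stdSimplex.objEquiv.symm (SimplexCategory.Hom.mk ⟨fun _ => 0, fun _ _ _ => le_refl _⟩)
  naturality k l α := rfl

lemma stdSimplex_hoEq (m : SimplexCategory) : HoEq (toPt (SSet.stdSimplex.{0}.obj m)) := by
  refine ⟨vert0 m, ⟨mkHtpy
    { app := fun k => ↾ fun (y : (SSet.stdSimplex.{0}.obj m).obj k × I1.obj k) =>
        SSet.stdSimplex.objEquiv.symm (SimplexCategory.Hom.mk
          (ctr (SSet.stdSimplex.objEquiv y.1).toOrderHom (oh y.2)))
      naturality := fun k l α => rfl } ?_ ?_⟩, ?_⟩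
  · refine ss_ext fun k (y : (SSet.stdSimplex.{0}.obj m).obj k) => ?_
    apply SSet.stdSimplex.objEquiv.injective
    refine (Equiv.apply_symm_apply _ _).trans ?_
    ext i
    exact congrArg Fin.val (ctr_zero _ _ i rfl)
  · refine ss_ext fun k (y : (SSet.stdSimplex.{0}.obj m).obj k) => ?_
    apply SSet.stdSimplex.objEquiv.injective
    refine (Equiv.apply_symm_apply _ _).trans ?_
    ext i
    exact congrArg Fin.val (ctr_one _ _ i rfl)
  · rw [pt_ext (_ ≫ _) (𝟙 pt)]
    exact htpy_rfl _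

section Nerve

variable {J : Type} [SmallCategory J] {T : J} (hT : IsTerminal T)

/-- Objects. -/
def ob (T j : J) : Fin 2 → J
  | 0 => j
  | 1 => T

/-- Morphisms. -/
def mp {j j' : J} (f : j ⟶ j') : ∀ (a b : Fin 2), a ≤ b → (ob T j a ⟶ ob T j' b)
  | 0, 0, _ => f
  | 0, 1, _ => hT.from j
  | 1, 1, _ => 𝟙 T
  | 1, 0, h => absurd h (by decide)

lemma mp_id (j : J) (a : Fin 2) : mp hT (𝟙 j) a a (le_refl _) = 𝟙 _ := by
  match a with
  | 0 => rfl
  | 1 => rfl

lemma mp_comp {j j' j'' : J} (f : j ⟶ j') (g : j' ⟶ j'') (a b c : Fin 2) (h : a ≤ b)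
    (h' : b ≤ c) : mp hT f a b h ≫ mp hT g b c h' = mp hT (f ≫ g) a c (h.trans h') := by
  match a, b, c with
  | 0, 0, 0 => rfl
  | 0, 0, 1 => exact hT.hom_ext _ _
  | 0, 1, 1 => exact hT.hom_ext _ _
  | 1, 1, 1 => exact hT.hom_ext _ _
  | 1, 0, _ => exact absurd h (by decide)
  | 0, 1, 0 => exact absurd h' (by decide)
  | 1, 1, 0 => exact absurd h' (by decide)

/-- The homotopy on chains. -/
def chH {k : SimplexCategory} (σ : Chain J k) (t : Fin (k.len + 1) →o Fin 2) : Chain J k where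
  obj i := ob T (σ.obj i) (t i)
  map i j h := mp hT (σ.map i j h) (t i) (t j) (t.monotone h)
  map_id i := by rw [σ.map_id]; exact mp_id hT _ _
  map_comp i j l h h' := by rw [mp_comp, σ.map_comp]

/-- The constant chain. -/
def chT (T : J) (k : SimplexCategory) : Chain J k where
  obj i := T
  map i j h := 𝟙 T
  map_id i := rfl
  map_comp i j l h h' := Category.id_comp _

theorem nv_we (W : WEFacts) (hT : IsTerminal T) : WE (toPt (Nv J)) := by
  refine we_of_contr W (toPt (Nv J))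
    { app := fun k => ↾ fun _ => (chT T k.unop : Chain J k.unop)
      naturality := fun k l α => rfl } (pt_ext _ _) ⟨mkHtpy
    { app := fun k => ↾ fun (y : Chain J k.unop × I1.obj k) => (chH hT y.1 (oh y.2) : Chain J _)
      naturality := fun k l α => rfl } ?_ ?_⟩
  · exact ss_ext fun k (y : Chain J k.unop) => rfl
  · exact ss_ext fun k (y : Chain J k.unop) => rfl

end Nerve

/-- The terminal simplex of a standard simplex. -/
def termS (m : SimplexCategory) : Simp (SSet.stdSimplex.{0}.obj m) :=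
  ⟨m, SSet.stdSimplex.objEquiv.symm (𝟙 m)⟩

/-- It is terminal. -/
noncomputable def termS_isTerminal (m : SimplexCategory) : IsTerminal (termS m) := by
  refine IsTerminal.ofUniqueHom (fun e => ⟨SSet.stdSimplex.objEquiv e.x, ?_⟩) fun e f => ?_
  · apply SSet.stdSimplex.objEquiv.injective
    exact Category.comp_id (SSet.stdSimplex.objEquiv e.x)
  · refine Subtype.ext ?_
    have h := congrArg SSet.stdSimplex.objEquiv f.2
    refine Eq.trans ?_ h
    exact (Category.comp_id _).symm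

theorem lastMap_simplex (W : WEFacts) (m : SimplexCategory) :
    WE (lastMap (SSet.stdSimplex.{0}.obj m)) := by
  refine W.comp_right (g := toPt _) (W.of_hoEq (stdSimplex_hoEq m)) ?_
  rw [pt_ext (_ ≫ _) (toPt _)]
  exact nv_we W (termS_isTerminal m)

theorem we_iso (W : WEFacts) {X Y : SSet.{0}} (f : X ⟶ Y) [IsIso f] : WE f :=
  W.of_hoEq ⟨inv f, by rw [IsIso.hom_inv_id]; exact htpy_rfl _,
    by rw [IsIso.inv_hom_id]; exact htpy_rfl _⟩

/-- The last vertex map is a weak equivalence. -/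
theorem lastMap_we_of (W : WEFacts) (K : SSet.{0}) : WE (lastMap K) := by
  have h : ∀ m : ℕ, WE (inc PB (SSet.stdSimplex.{0}.obj (SimplexCategory.mk m))) := fun m => by
    have h1 := lastMap_simplex W (SimplexCategory.mk m)
    rw [← toG_inc_ret] at h1
    exact W.comp_right (W.of_hoEq (ret_hoEq _)) (W.comp_left (we_iso W _) h1)
  rw [← toG_inc_ret]
  exact W.comp (we_iso W _) (W.comp (we_inc W PB h K) (W.of_hoEq (ret_hoEq K)))

end Helper53FL
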