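import Pool.Agent.Helper53.FL.Ind

/-!
# The cylinder of the last vertex map
-/

open CategoryTheory MonoidalCategory Opposite HomotopicalAlgebra Limits

set_option autoImplicit false
set_option linter.unusedVariables false

namespace Helper53FL

open FL

/-- Cells. -/
inductive CC (k : SimplexCategory) : Type
  | base : CC k
  | cell (σ : Chain SimplexCategory k) (s : Fin (k.len + 1) →o Fin 2)
      (h : s (Fin.last _) = 1) : CC k

/-- The dimension of a cell. -/
def CC.m {k : SimplexCategory} : CC k → SimplexCategory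
  | .base => k
  | .cell σ _ _ => σ.obj (Fin.last _)

/-- Composition. -/
def sc {k a b : SimplexCategory} (d : (c : CC k) × (c.m ⟶ a)) (g : a ⟶ b) :
    (c : CC k) × (c.m ⟶ b) := ⟨d.1, d.2 ≫ g⟩

lemma sc_id {k a : SimplexCategory} (d : (c : CC k) × (c.m ⟶ a)) : sc d (𝟙 a) = d := by
  obtain ⟨c, g⟩ := d
  exact congrArg (Sigma.mk c) (Category.comp_id g)

lemma sc_sc {k a b c : SimplexCategory} (d : (c : CC k) × (c.m ⟶ a)) (g : a ⟶ b) (h : b ⟶ c) :
    sc (sc d g) h = sc d (g ≫ h) := by
  obtain ⟨c, g⟩ := d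
  exact congrArg (Sigma.mk c) (Category.assoc _ _ _)

/-- The cell attached to a chain and a cut. -/
def cut {k : SimplexCategory} (σ : Chain SimplexCategory k) (s : Fin (k.len + 1) →o Fin 2) :
    (c : CC k) × (c.m ⟶ σ.obj (Fin.last _)) :=
  if h : s (Fin.last _) = 1 then ⟨.cell σ s h, 𝟙 _⟩ else ⟨.base, lastV σ⟩

lemma cut_pos {k : SimplexCategory} (σ : Chain SimplexCategory k) (s : Fin (k.len + 1) →o Fin 2)
    (h : s (Fin.last _) = 1) : cut σ s = ⟨.cell σ s h, 𝟙 _⟩ := dif_pos h

lemma cut_neg {k : SimplexCategory} (σ : Chain SimplexCategory k) (s : Fin (k.len + 1) →o Fin 2)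
    (h : ¬ s (Fin.last _) = 1) : cut σ s = ⟨.base, lastV σ⟩ := dif_neg h

/-- The action. -/
def CC.act {l k : SimplexCategory} (α : l ⟶ k) : (c : CC k) → (c' : CC l) × (c'.m ⟶ c.m)
  | .base => ⟨.base, α⟩
  | .cell σ s _ => sc (cut (σ.res α) (s.comp α.toOrderHom))
      (σ.map (α.toOrderHom (Fin.last _)) (Fin.last _) (Fin.le_last _))

lemma act_cut {l k : SimplexCategory} (α : l ⟶ k) (σ : Chain SimplexCategory k)
    (s : Fin (k.len + 1) →o Fin 2) :
    sc (CC.act α (cut σ s).1) (cut σ s).2 = sc (cut (σ.res α) (s.comp α.toOrderHom))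
      (σ.map (α.toOrderHom (Fin.last _)) (Fin.last _) (Fin.le_last _)) := by
  by_cases h : s (Fin.last _) = 1
  · rw [cut_pos σ s h]
    exact sc_id _
  · have h' : ¬ (s.comp α.toOrderHom) (Fin.last _) = 1 := fun h' => by
      have h1 : s (α.toOrderHom (Fin.last _)) ≤ s (Fin.last _) := s.monotone (Fin.le_last _)
      have h2 : s (α.toOrderHom (Fin.last _)) = 1 := h'
      rw [h2] at h1
      exact h (le_antisymm (Fin.le_last _) h1)
    rw [cut_neg σ s h, cut_neg _ _ h']
    exact congrArg (Sigma.mk CC.base) (lastV_res σ α)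

/-- The polynomial functor of the cylinder. -/
def CylF : PF where
  C := CC
  m := CC.m
  act := CC.act
  act_id {k} c := by
    cases c with
    | base => rfl
    | cell σ s h =>
      refine (congrArg (fun d => sc d _) (cut_pos σ s h)).trans ?_
      refine congrArg (Sigma.mk (CC.cell σ s h)) ?_
      exact (Category.id_comp _).trans (σ.map_id _)
  act_comp {j l k} β α c := by
    cases c with
    | base => rfl
    | cell σ s h =>
      have h1 := act_cut β (σ.res α) (s.comp α.toOrderHom)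
      have h2 := congrArg (fun d => sc d
        (σ.map (α.toOrderHom (Fin.last _)) (Fin.last _) (Fin.le_last _))) h1
      have h3 := ((sc_sc _ _ _).symm.trans h2).trans (sc_sc _ _ _)
      refine Eq.trans ?_ h3.symm
      exact congrArg (sc _) (σ.map_comp _ _ _ _ _).symm

/-- The cells at the end of the cylinder. -/
def CC.IsB {k : SimplexCategory} : CC k → Prop
  | .base => False
  | .cell _ s _ => s 0 = 1

lemma cut_isB {k : SimplexCategory} (σ : Chain SimplexCategory k)
    (s : Fin (k.len + 1) →o Fin 2) (h : s 0 = 1) : (cut σ s).1.IsB := by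
  have h' : s (Fin.last _) = 1 := by
    have := s.monotone (Fin.zero_le (Fin.last _))
    rw [h] at this
    exact le_antisymm (Fin.le_last _) this
  rw [cut_pos σ s h']
  exact h

/-- The sub-polynomial functor of the end of the cylinder. -/
def PB : CylF.Sub where
  mem := CC.IsB
  act {l k} α c h := by
    cases c with
    | base => exact h.elim
    | cell σ s h' =>
      refine cut_isB (σ.res α) (s.comp α.toOrderHom) ?_
      have h1 : s 0 = 1 := h
      have := s.monotone (Fin.zero_le (α.toOrderHom 0))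
      rw [h1] at this
      exact le_antisymm (Fin.le_last _) this

/-- The retraction. -/
def CC.r {k : SimplexCategory} : (c : CC k) → (k ⟶ c.m)
  | .base => 𝟙 k
  | .cell σ _ _ => lastV σ

lemma r_cut {k : SimplexCategory} (σ : Chain SimplexCategory k) (s : Fin (k.len + 1) →o Fin 2) :
    (cut σ s).1.r ≫ (cut σ s).2 = lastV σ := by
  by_cases h : s (Fin.last _) = 1
  · rw [cut_pos σ s h]; exact Category.comp_id _
  · rw [cut_neg σ s h]; exact Category.id_comp _

lemma r_act {l k : SimplexCategory} (α : l ⟶ k) (c : CC k) :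
    (CC.act α c).1.r ≫ (CC.act α c).2 = α ≫ c.r := by
  cases c with
  | base => exact (Category.id_comp α).trans (Category.comp_id α).symm
  | cell σ s h =>
    refine (Category.assoc _ _ _).symm.trans ?_
    refine (congrArg (· ≫ _) (r_cut (σ.res α) (s.comp α.toOrderHom))).trans ?_
    exact (lastV_res σ α).symm

/-- The cylinder. -/
abbrev Cyl (K : SSet.{0}) : SSet.{0} := G CylF.top K

/-- The retraction of the cylinder. -/
def ret (K : SSet.{0}) : Cyl K ⟶ K where
  app k := ↾ fun (y : GS CylF.top K k.unop) => K.map (CC.r y.c).op y.x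
  naturality k l α := by
    refine ty_ext fun (y : GS CylF.top K k.unop) => ?_
    refine (sset_comp K (CC.act α.unop y.c).2.op (CC.r (CC.act α.unop y.c).1).op y.x).symm.trans
      (Eq.trans ?_ (sset_comp K (CC.r y.c).op α y.x))
    exact congrArg (fun g : _ ⟶ _ => K.map (Quiver.Hom.op g) y.x) (r_act α.unop y.c)

/-- The section. -/
def sec (K : SSet.{0}) : K ⟶ Cyl K where
  app k := ↾ fun x => (show GS CylF.top K k.unop from ⟨.base, trivial, x⟩)
  naturality k l α := rfl

lemma sec_ret (K : SSet.{0}) : sec K ≫ ret K = 𝟙 K :=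
  ss_ext fun k x => sset_id K x

/-- The homotopy on cells. -/
def CC.mn {k : SimplexCategory} (t : Fin (k.len + 1) →o Fin 2) :
    (c : CC k) → (c' : CC k) × (c'.m ⟶ c.m)
  | .base => ⟨.base, 𝟙 k⟩
  | .cell σ s _ => cut σ (s ⊓ t)

lemma mn_cut {k : SimplexCategory} (t : Fin (k.len + 1) →o Fin 2) (σ : Chain SimplexCategory k)
    (s : Fin (k.len + 1) →o Fin 2) :
    sc (CC.mn t (cut σ s).1) (cut σ s).2 = cut σ (s ⊓ t) := by
  by_cases h : s (Fin.last _) = 1
  · rw [cut_pos σ s h]; exact sc_id _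
  · have h' : ¬ (s ⊓ t) (Fin.last _) = 1 := fun h' => by
      have h1 : (s ⊓ t) (Fin.last _) ≤ s (Fin.last _) := inf_le_left
      rw [h'] at h1
      exact h (le_antisymm (Fin.le_last _) h1)
    rw [cut_neg σ s h, cut_neg _ _ h']
    exact congrArg (Sigma.mk CC.base) (Category.id_comp _)

lemma mn_act {l k : SimplexCategory} (α : l ⟶ k) (t : Fin (k.len + 1) →o Fin 2) (c : CC k) :
    sc (CC.act α (CC.mn t c).1) (CC.mn t c).2 =
      sc (CC.mn (t.comp α.toOrderHom) (CC.act α c).1) (CC.act α c).2 := by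
  cases c with
  | base => exact congrArg (Sigma.mk CC.base) ((Category.comp_id α).trans (Category.id_comp α).symm)
  | cell σ s h =>
    refine (act_cut α σ (s ⊓ t)).trans (Eq.trans ?_ (sc_sc _ _ _))
    exact congrArg (fun d => sc d _) (mn_cut (t.comp α.toOrderHom) (σ.res α)
      (s.comp α.toOrderHom)).symm

/-- The monotone map underlying a simplex of `Δ[1]`. -/
def oh {k : SimplexCategoryᵒᵖ} (t : (SSet.stdSimplex.{0}.obj (SimplexCategory.mk 1)).obj k) :
    Fin (k.unop.len + 1) →o Fin 2 :=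
  (SSet.stdSimplex.objEquiv t).toOrderHom

lemma oh_map {k l : SimplexCategoryᵒᵖ} (α : k ⟶ l)
    (t : (SSet.stdSimplex.{0}.obj (SimplexCategory.mk 1)).obj k) :
    oh ((SSet.stdSimplex.{0}.obj (SimplexCategory.mk 1)).map α t) =
      (oh t).comp α.unop.toOrderHom := rfl

lemma GS.congrT {P : CylF.Sub} {K : SSet.{0}} {k n : SimplexCategory} (x : K.obj (op n))
    {d d' : (c : CC k) × (c.m ⟶ n)} (hd : d = d') (h : P.mem d.1) (h' : P.mem d'.1) :
    (GS.mk d.1 h (K.map d.2.op x) : GS P K k) = GS.mk d'.1 h' (K.map d'.2.op x) := by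
  subst hd; rfl

/-- The homotopy. -/
def homot (K : SSet.{0}) : Cyl K ⊗ (SSet.stdSimplex.{0}.obj (SimplexCategory.mk 1)) ⟶ Cyl K where
  app k := ↾ fun (y : GS CylF.top K k.unop ×
      (SSet.stdSimplex.{0}.obj (SimplexCategory.mk 1)).obj k) =>
    (show GS CylF.top K k.unop from
      ⟨(CC.mn (oh y.2) y.1.c).1, trivial, K.map (CC.mn (oh y.2) y.1.c).2.op y.1.x⟩)
  naturality k l α := by
    refine ty_ext fun (y : GS CylF.top K k.unop ×
      (SSet.stdSimplex.{0}.obj (SimplexCategory.mk 1)).obj k) => ?_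
    obtain ⟨⟨c, -, x⟩, t⟩ := y
    have h := GS.congrT (P := CylF.top) (K := K) x (mn_act α.unop (oh t) c) trivial trivial
    refine Eq.trans ?_ (h.symm.trans ?_)
    · exact GS.congr' (F := CylF) _ (sset_comp K (CC.act α.unop c).2.op _ x).symm
    · exact GS.congr' (F := CylF) _ (sset_comp K (CC.mn (oh t) c).2.op
        (CC.act α.unop (CC.mn (oh t) c).1).2.op x)

lemma mn_zero {k : SimplexCategory} (c : CC k) :
    CC.mn (⟨fun _ => 0, fun _ _ _ => le_refl _⟩ : Fin (k.len + 1) →o Fin 2) c =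
      ⟨.base, c.r⟩ := by
  cases c with
  | base => rfl
  | cell σ s h => exact cut_neg σ _ (fun h' => (by decide : ¬ (1 : Fin 2) = 0)
      (h'.symm.trans (inf_eq_right.2 (Fin.zero_le (s (Fin.last _))))))

lemma mn_one {k : SimplexCategory} (c : CC k) :
    CC.mn (⟨fun _ => 1, fun _ _ _ => le_refl _⟩ : Fin (k.len + 1) →o Fin 2) c = ⟨c, 𝟙 _⟩ := by
  cases c with
  | base => rfl
  | cell σ s h =>
    have e : s ⊓ (⟨fun _ => 1, fun _ _ _ => le_refl _⟩ : Fin (k.len + 1) →o Fin 2) = s := by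
      ext i
      exact congrArg Fin.val (inf_eq_left.2 (Fin.le_last (s i)))
    show cut σ (s ⊓ _) = _
    rw [e]
    exact cut_pos σ s h

lemma homot_zero (K : SSet.{0}) : SSet.ι₀ ≫ homot K = ret K ≫ sec K := by
  refine ss_ext fun k (y : GS CylF.top K k.unop) => ?_
  obtain ⟨c, -, x⟩ := y
  exact GS.congrT (P := CylF.top) (K := K) x (mn_zero c) trivial trivial

lemma homot_one (K : SSet.{0}) : SSet.ι₁ ≫ homot K = 𝟙 (Cyl K) := by
  refine ss_ext fun k (y : GS CylF.top K k.unop) => ?_
  obtain ⟨c, -, x⟩ := y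
  refine (GS.congrT (P := CylF.top) (K := K) x (mn_one c) trivial trivial).trans ?_
  exact GS.congr' (F := CylF) _ (sset_id K x)

/-- Building homotopies. -/
noncomputable def mkHtpy {X Y : SSet.{0}} {f g : X ⟶ Y}
    (h : X ⊗ (SSet.stdSimplex.{0}.obj (SimplexCategory.mk 1)) ⟶ Y)
    (h₀ : SSet.ι₀ ≫ h = f) (h₁ : SSet.ι₁ ≫ h = g) : SSet.Homotopy f g :=
  { h := h
    h₀ := h₀
    h₁ := h₁
    rel := by
      refine ss_ext fun k (y : (⊥ : X.Subcomplex).obj k × _) => ?_
      exact absurd y.1.2 (Set.notMem_empty _) }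

lemma htpy_rfl {X Y : SSet.{0}} (f : X ⟶ Y) : Htpy f f :=
  ⟨mkHtpy (CartesianMonoidalCategory.fst _ _ ≫ f) rfl rfl⟩

lemma ret_hoEq (K : SSet.{0}) : HoEq (ret K) :=
  ⟨sec K, ⟨mkHtpy (homot K) (homot_zero K) (homot_one K)⟩, by rw [sec_ret]; exact htpy_rfl _⟩

end Helper53FL
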