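import Pool.Agent.Helper53.FL.Lift

/-!
# The induction over the skeleta
-/

open CategoryTheory MonoidalCategory Simplicial Opposite HomotopicalAlgebra Limits

set_option autoImplicit false
set_option linter.unusedVariables false

namespace Helper53FL

open FL

lemma lift_of_dim {X Y : SSet.{0}} (ρ : X ⟶ Y) (m : ℕ)
    (hρ : ∀ l < m, HasLiftingProperty (∂Δ[l].ι : (∂Δ[l] : SSet.{0}) ⟶ Δ[l]) ρ)
    {A K : SSet.{0}} [K.HasDimensionLT m] (i : A ⟶ K) [Mono i] : HasLiftingProperty i ρ := by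
  let W : MorphismProperty SSet.{0} := fun _ _ f => HasLiftingProperty f ρ
  have hW : W.rlp ρ := fun _ _ f hf => hf
  refine MorphismProperty.transfiniteCompositionsOfShape_pushouts_coproducts_le_llp_rlp.{0} W ℕ i
    ⟨(SSet.relativeCellComplexOfMono i).transfiniteCompositionOfShape' (fun s => ?_)⟩ ρ hW
  refine hρ _ ?_
  obtain ⟨d, hd, (c : SSet.relativeCellComplexOfMono.Cell i d)⟩ := s
  exact SSet.dim_lt_of_nonDegenerate K ⟨c.simplex, c.nonDegenerate⟩ m

lemma lift_of_all {X Y : SSet.{0}} (ρ : X ⟶ Y)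
    (hρ : ∀ l, HasLiftingProperty (∂Δ[l].ι : (∂Δ[l] : SSet.{0}) ⟶ Δ[l]) ρ)
    {A K : SSet.{0}} (i : A ⟶ K) [Mono i] : HasLiftingProperty i ρ := by
  let W : MorphismProperty SSet.{0} := fun _ _ f => HasLiftingProperty f ρ
  have hW : W.rlp ρ := fun _ _ f hf => hf
  refine MorphismProperty.transfiniteCompositionsOfShape_pushouts_coproducts_le_llp_rlp.{0} W ℕ i
    ⟨(SSet.relativeCellComplexOfMono i).transfiniteCompositionOfShape' (fun s => ?_)⟩ ρ hW
  exact hρ _

/-- The facts about weak equivalences used. -/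
structure WEFacts : Prop where
  iff_lift : ∀ {X Y : SSet.{0}} (i : X ⟶ Y) [Mono i],
    WE i ↔ ∀ {E B : SSet.{0}} (p : E ⟶ B), SSet.KanComplex E → SSet.KanComplex B → KanFib p →
      HasLiftingProperty i p
  of_hoEq : ∀ {X Y : SSet.{0}} {f : X ⟶ Y}, HoEq f → WE f
  comp : ∀ {X Y Z : SSet.{0}} {f : X ⟶ Y} {g : Y ⟶ Z}, WE f → WE g → WE (f ≫ g)
  comp_left : ∀ {X Y Z : SSet.{0}} {f : X ⟶ Y} {g : Y ⟶ Z}, WE f → WE (f ≫ g) → WE g
  comp_right : ∀ {X Y Z : SSet.{0}} {f : X ⟶ Y} {g : Y ⟶ Z}, WE g → WE (f ≫ g) → WE f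

/-- The key induction: if `G_P(Δ[m]) ⟶ G(Δ[m])` is a weak equivalence for all `m`, then
`G_P(K) ⟶ G(K)` is a weak equivalence for all `K`. -/
theorem we_inc (W : WEFacts) {F : PF} (P : F.Sub)
    (h : ∀ m : ℕ, WE (inc P (Δ[m] : SSet.{0}))) (K : SSet.{0}) : WE (inc P K) := by
  have key : ∀ m : ℕ, ∀ {E B : SSet.{0}} (p : E ⟶ B), SSet.KanComplex E → SSet.KanComplex B →
      KanFib p → HasLiftingProperty (∂Δ[m].ι : (∂Δ[m] : SSet.{0}) ⟶ Δ[m]) (rho P p) := by
    intro m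
    induction m using Nat.strong_induction_on with
    | _ m ih =>
      have h1 : ∀ {E B : SSet.{0}} (p : E ⟶ B), SSet.KanComplex E → SSet.KanComplex B →
          KanFib p → HasLiftingProperty (inc P (∂Δ[m] : SSet.{0})) p := fun p hE hB hp =>
        lift_of_rho P p _ (lift_of_dim _ m (fun l hl => ih l hl p hE hB hp) _)
      have h2 : WE (inP P (∂Δ[m] : (Δ[m] : SSet.{0}).Subcomplex)) :=
        (W.iff_lift _).2 fun p hE hB hp => inP_lift P p _ (h1 p hE hB hp)
      have h3 : WE (Q P (∂Δ[m] : (Δ[m] : SSet.{0}).Subcomplex)).ι :=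
        W.comp_left h2 (by rw [inP_ι]; exact h m)
      intro E B p hE hB hp
      exact rho_of_lift P p _ ((W.iff_lift _).1 h3 p hE hB hp)
  exact (W.iff_lift _).2 fun p hE hB hp =>
    lift_of_rho P p K (lift_of_all _ (fun l => key l p hE hB hp) _)

end Helper53FL
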