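import Pool.Agent.Helper53.FL.Poly

/-!
# Lifting properties of maps between polynomial functors
-/

open CategoryTheory MonoidalCategory Simplicial Opposite HomotopicalAlgebra Limits

set_option autoImplicit false
set_option linter.unusedVariables false

namespace Helper53FL

open FL

variable {F : PF} (P : F.Sub)

lemma le_top : ∀ {k : SimplexCategory} (c : F.C k), P.mem c → F.top.mem c :=
  fun _ _ => trivial

/-- The inclusion `G_P(K) ⟶ G(K)`. -/
def inc (K : SSet.{0}) : G P K ⟶ G F.top K := G.map (le_top P) (𝟙 K)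

/-- The map `R_⊤(E) ⟶ R_P(E)`. -/
def RR (E : SSet.{0}) : R F.top E ⟶ R P E := R.res (le_top P) E

lemma adj_RR {K E : SSet.{0}} (a : K ⟶ R F.top E) :
    adj (a ≫ RR P E) = inc P K ≫ adj a := rfl

/-- The target of `rho`. -/
noncomputable abbrev TT {E B : SSet.{0}} (p : E ⟶ B) : SSet.{0} :=
  pullback (R.map P p) (RR P B)

/-- The map `R_⊤(E) ⟶ R_P(E) ×_{R_P(B)} R_⊤(B)`. -/
noncomputable def rho {E B : SSet.{0}} (p : E ⟶ B) : R F.top E ⟶ TT P p :=
  pullback.lift (RR P E) (R.map F.top p) rfl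

lemma rho_fst {E B : SSet.{0}} (p : E ⟶ B) :
    rho P p ≫ pullback.fst (R.map P p) (RR P B) = RR P E :=
  pullback.lift_fst _ _ _

lemma rho_snd {E B : SSet.{0}} (p : E ⟶ B) :
    rho P p ≫ pullback.snd (R.map P p) (RR P B) = R.map F.top p :=
  pullback.lift_snd _ _ _

/-- If `∅ ⟶ K` has the left lifting property w.r.t. `rho p`, then `G_P(K) ⟶ G(K)` has the left
lifting property w.r.t. `p`. -/
lemma lift_of_rho {E B : SSet.{0}} (p : E ⟶ B) (K : SSet.{0})
    (h : HasLiftingProperty ((⊥ : K.Subcomplex).ι) (rho P p)) :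
    HasLiftingProperty (inc P K) p := by
  refine ⟨fun {f g} sq => ?_⟩
  obtain ⟨w⟩ := sq
  have hw : adj.symm f ≫ R.map P p = adj.symm g ≫ RR P B := by
    apply adj.injective
    refine (adj_right _ _).trans (Eq.trans ?_ (adj_RR _ _).symm)
    refine (congrArg (· ≫ p) (Equiv.apply_symm_apply adj f)).trans (w.trans ?_)
    exact congrArg (inc P K ≫ ·) (Equiv.apply_symm_apply adj g).symm
  let t : K ⟶ TT P p := pullback.lift (adj.symm f) (adj.symm g) hw
  have sq' : CommSq (SSet.Subcomplex.isInitialBot.to _) ((⊥ : K.Subcomplex).ι) (rho P p) t :=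
    ⟨SSet.Subcomplex.isInitialBot.hom_ext _ _⟩
  have := h.sq_hasLift sq'
  have e : sq'.lift ≫ rho P p = t := sq'.fac_right
  refine ⟨⟨⟨adj sq'.lift, ?_, ?_⟩⟩⟩
  · have e1 : sq'.lift ≫ RR P E = adj.symm f := by
      rw [← rho_fst, ← Category.assoc, e]
      exact pullback.lift_fst _ _ _
    exact (adj_RR _ _).symm.trans ((congrArg adj e1).trans (Equiv.apply_symm_apply adj f))
  · have e1 : sq'.lift ≫ R.map F.top p = adj.symm g := by
      rw [← rho_snd P p, ← Category.assoc, e]
      exact pullback.lift_snd _ _ _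
    exact (adj_right _ _).symm.trans ((congrArg adj e1).trans (Equiv.apply_symm_apply adj g))

/-- The subcomplex `G_P(K) ∪ G(A)` of `G(K)`. -/
def Q {K : SSet.{0}} (A : K.Subcomplex) : (G F.top K).Subcomplex where
  obj k := Set.ofPred fun (y : GS F.top K k.unop) => P.mem y.c ∨ y.x ∈ A.obj (op (F.m y.c))
  map {k l} α := by
    rintro (y : GS F.top K k.unop) (h | h)
    · exact Or.inl (P.act _ _ h)
    · exact Or.inr (A.map (F.act α.unop y.c).2.op h)

open Classical in
/-- Glueing. -/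
noncomputable def glue {K E : SSet.{0}} (A : K.Subcomplex) (a : G F.top (A : SSet.{0}) ⟶ E)
    (b : G P K ⟶ E) (h : inc P (A : SSet.{0}) ≫ a = G.map (fun _ h => h) A.ι ≫ b) :
    (Q P A : SSet.{0}) ⟶ E where
  app k := ↾ fun (y : { y : GS F.top K k.unop // P.mem y.c ∨ y.x ∈ A.obj (op (F.m y.c)) }) =>
    if hP : P.mem y.1.c then b.app k (show GS P K k.unop from ⟨y.1.c, hP, y.1.x⟩) else
      a.app k (show GS F.top (A : SSet.{0}) k.unop from ⟨y.1.c, trivial, ⟨y.1.x,
        y.2.resolve_left hP⟩⟩)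
  naturality k l α := by
    refine ty_ext fun (y : { y : GS F.top K k.unop // P.mem y.c ∨ y.x ∈ A.obj (op (F.m y.c)) }) => ?_
    obtain ⟨⟨c, -, x⟩, hy⟩ := y
    by_cases hP : P.mem c
    · refine (dif_pos (P.act α.unop c hP)).trans (Eq.trans ?_ (congrArg (E.map α) (dif_pos hP).symm))
      exact sset_nat b α (show GS P K k.unop from ⟨c, hP, x⟩)
    · refine Eq.trans ?_ (congrArg (E.map α) (dif_neg hP).symm)
      refine Eq.trans ?_ (sset_nat a α (show GS F.top (A : SSet.{0}) k.unop from ⟨c, trivial, ⟨x,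
        hy.resolve_left hP⟩⟩))
      by_cases hP' : P.mem (F.act α.unop c).1
      · refine (dif_pos hP').trans ?_
        exact (ConcreteCategory.congr_hom (NatTrans.congr_app h l)
          (show GS P (A : SSet.{0}) l.unop from ⟨(F.act α.unop c).1, hP', ⟨_,
            A.map (F.act α.unop c).2.op (hy.resolve_left hP)⟩⟩)).symm
      · exact dif_neg hP'

/-- The inclusion `G(A) ⟶ Q(A)`. -/
def inA {K : SSet.{0}} (A : K.Subcomplex) : G F.top (A : SSet.{0}) ⟶ (Q P A : SSet.{0}) where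
  app k := ↾ fun (y : GS F.top (A : SSet.{0}) k.unop) =>
    (show { y : GS F.top K k.unop // P.mem y.c ∨ y.x ∈ A.obj (op (F.m y.c)) } from
      ⟨⟨y.c, trivial, (show A.obj _ from y.x).1⟩, Or.inr (show A.obj _ from y.x).2⟩)
  naturality k l α := rfl

/-- The inclusion `G_P(K) ⟶ Q(A)`. -/
def inP {K : SSet.{0}} (A : K.Subcomplex) : G P K ⟶ (Q P A : SSet.{0}) where
  app k := ↾ fun (y : GS P K k.unop) =>
    (show { y : GS F.top K k.unop // P.mem y.c ∨ y.x ∈ A.obj (op (F.m y.c)) } from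
      ⟨⟨y.c, trivial, y.x⟩, Or.inl y.h⟩)
  naturality k l α := rfl

lemma inA_ι {K : SSet.{0}} (A : K.Subcomplex) :
    inA P A ≫ (Q P A).ι = G.map (fun _ h => h) A.ι := rfl

lemma inP_ι {K : SSet.{0}} (A : K.Subcomplex) : inP P A ≫ (Q P A).ι = inc P K := rfl

lemma inA_inP {K : SSet.{0}} (A : K.Subcomplex) :
    inc P (A : SSet.{0}) ≫ inA P A = G.map (fun _ h => h) A.ι ≫ inP P A := rfl

section

variable {P}
variable {K E : SSet.{0}} {A : K.Subcomplex} {a : G F.top (A : SSet.{0}) ⟶ E}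
    {b : G P K ⟶ E} (h : inc P (A : SSet.{0}) ≫ a = G.map (fun _ h => h) A.ι ≫ b)

lemma inP_glue : inP P A ≫ glue P A a b h = b :=
  ss_ext fun k (y : GS P K k.unop) => dif_pos y.h

lemma inA_glue : inA P A ≫ glue P A a b h = a := by
  refine ss_ext fun k (y : GS F.top (A : SSet.{0}) k.unop) => ?_
  by_cases hP : P.mem y.c
  · refine (dif_pos hP).trans ?_
    exact (ConcreteCategory.congr_hom (NatTrans.congr_app h k)
      (show GS P (A : SSet.{0}) k.unop from ⟨y.c, hP, y.x⟩)).symm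
  · exact dif_neg hP

lemma Q_ext {f g : (Q P A : SSet.{0}) ⟶ E} (hA : inA P A ≫ f = inA P A ≫ g)
    (hP : inP P A ≫ f = inP P A ≫ g) : f = g := by
  refine ss_ext fun k (y : { y : GS F.top K k.unop // P.mem y.c ∨
    y.x ∈ A.obj (op (F.m y.c)) }) => ?_
  obtain ⟨⟨c, -, x⟩, hy | hy⟩ := y
  · exact ConcreteCategory.congr_hom (NatTrans.congr_app hP k) (show GS P K k.unop from ⟨c, hy, x⟩)
  · exact ConcreteCategory.congr_hom (NatTrans.congr_app hA k)
      (show GS F.top (A : SSet.{0}) k.unop from ⟨c, trivial, ⟨x, hy⟩⟩)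

end

/-- If `Q(A) ⟶ G(K)` has the left lifting property w.r.t. `p`, then `A ⟶ K` has the left
lifting property w.r.t. `rho p`. -/
lemma rho_of_lift {E B : SSet.{0}} (p : E ⟶ B) {K : SSet.{0}} (A : K.Subcomplex)
    (h : HasLiftingProperty (Q P A).ι p) : HasLiftingProperty A.ι (rho P p) := by
  refine ⟨fun {f g} sq => ?_⟩
  obtain ⟨w⟩ := sq
  have w1 : f ≫ RR P E = A.ι ≫ (g ≫ pullback.fst (R.map P p) (RR P B)) := by
    rw [← rho_fst P p, ← Category.assoc, w, Category.assoc]
  have w2 : f ≫ R.map F.top p = A.ι ≫ (g ≫ pullback.snd (R.map P p) (RR P B)) := by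
    rw [← rho_snd P p, ← Category.assoc, w, Category.assoc]
  have w3 : (g ≫ pullback.fst (R.map P p) (RR P B)) ≫ R.map P p =
      (g ≫ pullback.snd (R.map P p) (RR P B)) ≫ RR P B := by
    rw [Category.assoc, Category.assoc, pullback.condition]
  generalize hu : g ≫ pullback.fst (R.map P p) (RR P B) = u at w1 w3
  generalize hv : g ≫ pullback.snd (R.map P p) (RR P B) = v at w2 w3
  have v1 : inc P (A : SSet.{0}) ≫ adj f = G.map (fun _ h => h) A.ι ≫ adj u := congrArg adj w1
  have v2 : adj f ≫ p = G.map (fun _ h => h) A.ι ≫ adj v := congrArg adj w2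
  have v3 : adj u ≫ p = inc P K ≫ adj v := congrArg adj w3
  have sq' : CommSq (glue P A (adj f) (adj u) v1) (Q P A).ι p (adj v) := by
    refine ⟨Q_ext ?_ ?_⟩
    · rw [← Category.assoc, inA_glue, ← Category.assoc, inA_ι]; exact v2
    · rw [← Category.assoc, inP_glue, ← Category.assoc, inP_ι]; exact v3
  have := h.sq_hasLift sq'
  refine ⟨⟨⟨adj.symm sq'.lift, ?_, ?_⟩⟩⟩
  · apply adj.injective
    refine (adj_left _ _).trans ?_
    rw [Equiv.apply_symm_apply, ← inA_ι, Category.assoc, sq'.fac_left, inA_glue]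
  · apply pullback.hom_ext
    · rw [Category.assoc, rho_fst, hu]
      apply adj.injective
      refine (adj_RR _ _).trans ?_
      rw [Equiv.apply_symm_apply, ← inP_ι P A, Category.assoc, sq'.fac_left, inP_glue]
    · rw [Category.assoc, rho_snd, hv]
      apply adj.injective
      refine (adj_right _ _).trans ?_
      rw [Equiv.apply_symm_apply]
      exact sq'.fac_right

/-- If `G_P(A) ⟶ G(A)` has the left lifting property w.r.t. `p`, so has `G_P(K) ⟶ Q(A)`. -/
lemma inP_lift {E B : SSet.{0}} (p : E ⟶ B) {K : SSet.{0}} (A : K.Subcomplex)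
    (h : HasLiftingProperty (inc P (A : SSet.{0})) p) : HasLiftingProperty (inP P A) p := by
  refine ⟨fun {f g} sq => ?_⟩
  obtain ⟨w⟩ := sq
  have sq' : CommSq (G.map (fun _ h => h) A.ι ≫ f) (inc P (A : SSet.{0})) p (inA P A ≫ g) := by
    refine ⟨?_⟩
    rw [Category.assoc, w, ← Category.assoc, ← inA_inP, Category.assoc]
  have := h.sq_hasLift sq'
  refine ⟨⟨⟨glue P A sq'.lift f sq'.fac_left, inP_glue _, Q_ext ?_ ?_⟩⟩⟩
  · rw [← Category.assoc, inA_glue]; exact sq'.fac_right
  · rw [← Category.assoc, inP_glue]; exact w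

instance {K : SSet.{0}} (A : K.Subcomplex) : Mono (inP P A) := by
  have : ∀ k, Mono ((inP P A).app k) := fun k => by
    rw [mono_iff_injective]
    rintro (y : GS P K k.unop) (y' : GS P K k.unop) h
    have h1 : (⟨y.c, trivial, y.x⟩ : GS F.top K k.unop) = ⟨y'.c, trivial, y'.x⟩ :=
      congrArg Subtype.val (show (_ : { y : GS F.top K k.unop // P.mem y.c ∨
        y.x ∈ A.obj (op (F.m y.c)) }) = _ from h)
    obtain ⟨c, h, x⟩ := y
    obtain ⟨c', h', x'⟩ := y'
    injection h1 with h1 h2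
    subst h1
    cases h2
    rfl
  exact NatTrans.mono_of_mono_app _

instance (K : SSet.{0}) : Mono (inc P K) := by
  have : ∀ k, Mono ((inc P K).app k) := fun k => by
    rw [mono_iff_injective]
    rintro (y : GS P K k.unop) (y' : GS P K k.unop) h
    have h1 : (⟨y.c, trivial, y.x⟩ : GS F.top K k.unop) = ⟨y'.c, trivial, y'.x⟩ := h
    obtain ⟨c, h, x⟩ := y
    obtain ⟨c', h', x'⟩ := y'
    injection h1 with h1 h2
    subst h1
    cases h2
    rfl
  exact NatTrans.mono_of_mono_app _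

end Helper53FL
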