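import Pool.Agent.Helper53.FL.Cyl

/-!
# The nerve of the category of simplices as a polynomial functor
-/

open CategoryTheory MonoidalCategory Opposite HomotopicalAlgebra Limits

set_option autoImplicit false
set_option linter.unusedVariables false

namespace Helper53FL

open FL

/-- The constant cut. -/
def one (k : SimplexCategory) : Fin (k.len + 1) →o Fin 2 := ⟨fun _ => 1, fun _ _ _ => le_refl _⟩

/-- The comparison. -/
def toG (K : SSet.{0}) : Nv (Simp K) ⟶ G PB K where
  app k := ↾ fun (σ : Chain (Simp K) k.unop) =>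
    (show GS PB K k.unop from ⟨CC.cell (σ.push (Simp.toΔ K)) (one k.unop) rfl, rfl,
      (σ.obj (Fin.last _)).x⟩)
  naturality k l α := by
    refine ty_ext fun (σ : Chain (Simp K) k.unop) => ?_
    have h := GS.congrT (P := PB) (K := K) (σ.obj (Fin.last _)).x
      (congrArg (fun d => sc d ((σ.push (Simp.toΔ K)).map (α.unop.toOrderHom (Fin.last _))
        (Fin.last _) (Fin.le_last _))) (cut_pos ((σ.push (Simp.toΔ K)).res α.unop)
          ((one k.unop).comp α.unop.toOrderHom) rfl))
    refine Eq.trans ?_ (h ?_ rfl).symm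
    · refine GS.congr' (F := CylF) _ ?_
      refine (σ.map (α.unop.toOrderHom (Fin.last _)) (Fin.last _) (Fin.le_last _)).2.symm.trans ?_
      exact congrArg (fun g : _ ⟶ _ => K.map (Quiver.Hom.op g) (σ.obj (Fin.last _)).x)
        (Category.id_comp _).symm
    · exact cut_isB ((σ.push (Simp.toΔ K)).res α.unop) ((one k.unop).comp α.unop.toOrderHom) rfl

/-- Chains of simplices. -/
def mkC {K : SSet.{0}} {k : SimplexCategory} (τ : Chain SimplexCategory k)
    (x : ∀ i, K.obj (op (τ.obj i))) (hx : ∀ i j h, K.map (τ.map i j h).op (x j) = x i) :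
    Chain (Simp K) k where
  obj i := ⟨τ.obj i, x i⟩
  map i j h := ⟨τ.map i j h, hx i j h⟩
  map_id i := Subtype.ext (τ.map_id i)
  map_comp i j l h h' := Subtype.ext (τ.map_comp i j l h h')

lemma mkC_congr {K : SSet.{0}} {k : SimplexCategory} (τ : Chain SimplexCategory k)
    {x x' : ∀ i, K.obj (op (τ.obj i))} (h : x = x')
    (hx : ∀ i j h, K.map (τ.map i j h).op (x j) = x i)
    (hx' : ∀ i j h, K.map (τ.map i j h).op (x' j) = x' i) : mkC τ x hx = mkC τ x' hx' := by
  subst h; rfl

/-- The chain attached to a chain and a simplex. -/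
def chn {K : SSet.{0}} {k : SimplexCategory} (τ : Chain SimplexCategory k)
    (x : K.obj (op (τ.obj (Fin.last _)))) : Chain (Simp K) k :=
  mkC τ (fun i => K.map (τ.map i (Fin.last _) (Fin.le_last _)).op x) fun i j h => by
    refine (sset_comp K _ _ x).symm.trans ?_
    exact congrArg (fun g : _ ⟶ _ => K.map (Quiver.Hom.op g) x) (τ.map_comp i j _ h _)

lemma chn_push {K : SSet.{0}} {k : SimplexCategory} (σ : Chain (Simp K) k) :
    chn (σ.push (Simp.toΔ K)) (σ.obj (Fin.last _)).x = σ := by
  have h : σ = mkC (σ.push (Simp.toΔ K)) (fun i => (σ.obj i).x) (fun i j h => (σ.map i j h).2) :=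
    rfl
  conv_rhs => rw [h]
  refine mkC_congr _ ?_ _ _
  funext i
  exact (σ.map i (Fin.last _) (Fin.le_last _)).2

lemma one_unique {k : SimplexCategory} (s : Fin (k.len + 1) →o Fin 2) (h : s 0 = 1) :
    s = one k := by
  ext i
  have h1 := s.monotone (Fin.zero_le i)
  rw [h] at h1
  exact congrArg Fin.val (le_antisymm (Fin.le_last _) h1)

lemma toG_bij (K : SSet.{0}) (k : SimplexCategoryᵒᵖ) :
    Function.Bijective ((toG K).app k) := by
  refine Function.bijective_iff_has_inverse.2 ⟨fun (y : GS PB K k.unop) => ?_, ?_, ?_⟩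
  · exact match y with
      | ⟨.base, h, _⟩ => h.elim
      | ⟨.cell τ _ _, _, x⟩ => (chn τ x : Chain (Simp K) k.unop)
  · intro (σ : Chain (Simp K) k.unop)
    exact chn_push σ
  · intro (y : GS PB K k.unop)
    obtain ⟨c, h, x⟩ := y
    cases c with
    | base => exact h.elim
    | cell τ s hs =>
      obtain rfl := one_unique s h
      refine GS.congr' (F := CylF) _ ?_
      refine Eq.trans ?_ (sset_id K x)
      exact congrArg (fun g : _ ⟶ _ => K.map (Quiver.Hom.op g) x) (τ.map_id _)

instance (K : SSet.{0}) : IsIso (toG K) := by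
  have : ∀ k, IsIso ((toG K).app k) := fun k => (isIso_iff_bijective _).2 (toG_bij K k)
  exact NatIso.isIso_of_isIso_app _

lemma toG_inc_ret (K : SSet.{0}) : toG K ≫ inc PB K ≫ ret K = lastMap K := rfl

end Helper53FL
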