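import Pool.Agent.Helper58.FL.Tools

/-!
# Polynomial functors on simplicial sets and their right adjoints
-/

open CategoryTheory MonoidalCategory Simplicial Opposite HomotopicalAlgebra Limits

set_option autoImplicit false
set_option linter.unusedVariables false

namespace Helper53FL

open FL

lemma ty_ext {A B : Type} {f g : A ⟶ B} (h : ∀ a : A, f a = g a) : f = g := by
  ext a; exact h a

lemma ss_ext {K L : SSet.{0}} {f g : K ⟶ L} (h : ∀ (k : SimplexCategoryᵒᵖ) (x : K.obj k),
    f.app k x = g.app k x) : f = g :=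
  NatTrans.ext (funext fun k => ty_ext (h k))

/-- Data of a functor `K ↦ ∐_{c ∈ C_k} K_{m(c)}`. -/
structure PF : Type 1 where
  C : SimplexCategory → Type
  m : ∀ {k : SimplexCategory}, C k → SimplexCategory
  act : ∀ {l k : SimplexCategory} (_ : l ⟶ k) (c : C k), (c' : C l) × (m c' ⟶ m c)
  act_id : ∀ {k : SimplexCategory} (c : C k), act (𝟙 k) c = ⟨c, 𝟙 _⟩
  act_comp : ∀ {j l k : SimplexCategory} (β : j ⟶ l) (α : l ⟶ k) (c : C k),
    act (β ≫ α) c = ⟨(act β (act α c).1).1, (act β (act α c).1).2 ≫ (act α c).2⟩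

/-- Stable families. -/
structure PF.Sub (F : PF) where
  mem : ∀ {k : SimplexCategory}, F.C k → Prop
  act : ∀ {l k : SimplexCategory} (α : l ⟶ k) (c : F.C k), mem c → mem (F.act α c).1

/-- Everything. -/
def PF.top (F : PF) : F.Sub where
  mem _ := True
  act _ _ _ := trivial

variable {F : PF}

/-- Simplices. -/
structure GS (P : F.Sub) (K : SSet.{0}) (k : SimplexCategory) : Type where
  c : F.C k
  h : P.mem c
  x : K.obj (op (F.m c))

lemma GS.congr {P : F.Sub} {K : SSet.{0}} {k n : SimplexCategory} (x : K.obj (op n))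
    {d d' : (c : F.C k) × (F.m c ⟶ n)} (hd : d = d') (h : P.mem d.1) (h' : P.mem d'.1) :
    (GS.mk d.1 h (K.map d.2.op x) : GS P K k) = GS.mk d'.1 h' (K.map d'.2.op x) := by
  subst hd; rfl

lemma GS.congr' {P : F.Sub} {K : SSet.{0}} {k : SimplexCategory} {c : F.C k} (h : P.mem c)
    {x x' : K.obj (op (F.m c))} (hx : x = x') : (GS.mk c h x : GS P K k) = GS.mk c h x' := by
  rw [hx]

/-- The functor. -/
def G (P : F.Sub) (K : SSet.{0}) : SSet.{0} where
  obj k := GS P K k.unop
  map α := ↾ fun (y : GS P K _) =>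
    (GS.mk (F.act α.unop y.c).1 (P.act _ _ y.h) (K.map (F.act α.unop y.c).2.op y.x) : GS P K _)
  map_id k := by
    ext (y : GS P K k.unop)
    obtain ⟨c, h, x⟩ := y
    refine (GS.congr (P := P) x (F.act_id c) _ h).trans ?_
    exact GS.congr' h (sset_id K x)
  map_comp {k l m} α β := by
    ext (y : GS P K k.unop)
    obtain ⟨c, h, x⟩ := y
    refine (GS.congr (P := P) x (F.act_comp β.unop α.unop c) _ (P.act _ _ (P.act _ _ h))).trans ?_
    exact GS.congr' _ (sset_comp K (F.act α.unop c).2.op (F.act β.unop (F.act α.unop c).1).2.op x)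

/-- Functoriality. -/
def G.map {P P' : F.Sub} (hP : ∀ {k : SimplexCategory} (c : F.C k), P.mem c → P'.mem c)
    {K L : SSet.{0}} (f : K ⟶ L) : G P K ⟶ G P' L where
  app k := ↾ fun (y : GS P K k.unop) => (GS.mk y.c (hP _ y.h) (f.app _ y.x) : GS P' L k.unop)
  naturality k l α := by
    ext (y : GS P K k.unop)
    exact GS.congr' _ (sset_nat f _ y.x)

/-- Representable simplicial sets. -/
def hh (m : SimplexCategory) : SSet.{0} where
  obj k := k.unop ⟶ m
  map α := ↾ fun g => α.unop ≫ g
  map_id k := ty_ext fun (g : k.unop ⟶ m) => Category.id_comp g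
  map_comp {k l n} α β := ty_ext fun (g : k.unop ⟶ m) => Category.assoc β.unop α.unop g

/-- Functoriality of `hh`. -/
def hhm {m n : SimplexCategory} (f : m ⟶ n) : hh m ⟶ hh n where
  app k := ↾ fun (g : k.unop ⟶ m) => (g ≫ f : k.unop ⟶ n)
  naturality k l α := ty_ext fun (g : k.unop ⟶ m) => Category.assoc α.unop g f

/-- Yoneda. -/
def yon {K : SSet.{0}} {m : SimplexCategory} (x : K.obj (op m)) : hh m ⟶ K where
  app k := ↾ fun (g : k.unop ⟶ m) => K.map g.op x
  naturality k l α := ty_ext fun (g : k.unop ⟶ m) => sset_comp K g.op α x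

/-- The right adjoint. -/
def R (P : F.Sub) (E : SSet.{0}) : SSet.{0} where
  obj m := G P (hh m.unop) ⟶ E
  map α := ↾ fun f => G.map (fun _ h => h) (hhm α.unop) ≫ f
  map_id m := by
    refine ty_ext fun f => ss_ext fun k (y : GS P _ k.unop) => ?_
    obtain ⟨c, h, (x : F.m c ⟶ m.unop)⟩ := y
    exact congrArg (fun x' : F.m c ⟶ m.unop => f.app k (GS.mk c h x')) (Category.comp_id x)
  map_comp {m n p} α β := by
    refine ty_ext fun f => ss_ext fun k (y : GS P _ k.unop) => ?_
    obtain ⟨c, h, (x : F.m c ⟶ p.unop)⟩ := y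
    exact congrArg (fun x' : F.m c ⟶ m.unop => f.app k (GS.mk c h x'))
      (Category.assoc x β.unop α.unop).symm

/-- Functoriality of the right adjoint. -/
def R.map (P : F.Sub) {E B : SSet.{0}} (p : E ⟶ B) : R P E ⟶ R P B where
  app m := ↾ fun f => f ≫ p
  naturality m n α := rfl

/-- Restriction. -/
def R.res {P P' : F.Sub} (hP : ∀ {k : SimplexCategory} (c : F.C k), P.mem c → P'.mem c)
    (E : SSet.{0}) : R P' E ⟶ R P E where
  app m := ↾ fun f => G.map hP (𝟙 _) ≫ f
  naturality m n α := rfl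

/-- The adjunction. -/
def adj {P : F.Sub} {K E : SSet.{0}} : (K ⟶ R P E) ≃ (G P K ⟶ E) where
  toFun a :=
    { app := fun k => ↾ fun (y : GS P K k.unop) =>
        (show G P (hh (F.m y.c)) ⟶ E from a.app (op (F.m y.c)) y.x).app k
          (show GS P (hh (F.m y.c)) k.unop from ⟨y.c, y.h, 𝟙 (F.m y.c)⟩)
      naturality := fun k l α => by
        refine ty_ext fun (y : GS P K k.unop) => ?_
        obtain ⟨c, h, x⟩ := y
        have h1 := sset_nat a (F.act α.unop c).2.op x
        have h2 := sset_nat (show G P (hh (F.m c)) ⟶ E from a.app (op (F.m c)) x) α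
          (show GS P (hh (F.m c)) k.unop from ⟨c, h, 𝟙 (F.m c)⟩)
        refine Eq.trans ?_ h2
        refine (congrArg (fun f : G P (hh (F.m (F.act α.unop c).1)) ⟶ E =>
          f.app l (show GS P (hh _) l.unop from ⟨(F.act α.unop c).1, P.act _ _ h, 𝟙 _⟩)) h1).trans ?_
        refine congrArg (fun g : F.m (F.act α.unop c).1 ⟶ F.m c =>
          (show G P (hh (F.m c)) ⟶ E from a.app (op (F.m c)) x).app l
            (show GS P (hh _) l.unop from ⟨(F.act α.unop c).1, P.act _ _ h, g⟩)) ?_
        exact (Category.id_comp (F.act α.unop c).2).trans (Category.comp_id (F.act α.unop c).2).symm }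
  invFun f :=
    { app := fun m => ↾ fun x => (show G P (hh m.unop) ⟶ E from G.map (fun _ h => h) (yon x) ≫ f)
      naturality := fun m n α => by
        refine ty_ext fun x => ss_ext fun k (y : GS P _ k.unop) => ?_
        exact congrArg (fun x' => f.app k (show GS P K k.unop from ⟨y.c, y.h, x'⟩))
          (sset_comp K α (show F.m y.c ⟶ n.unop from y.x).op x).symm }
  left_inv a := by
    refine ss_ext fun m x => ss_ext fun k (y : GS P _ k.unop) => ?_
    obtain ⟨c, h, (x' : F.m c ⟶ m.unop)⟩ := y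
    have h1 := sset_nat a x'.op x
    refine (congrArg (fun f : G P (hh (F.m c)) ⟶ E =>
          f.app k (show GS P (hh _) k.unop from ⟨c, h, 𝟙 _⟩)) h1).trans ?_
    exact congrArg (fun g : F.m c ⟶ m.unop =>
      (show G P (hh m.unop) ⟶ E from a.app m x).app k
        (show GS P (hh _) k.unop from ⟨c, h, g⟩)) (Category.id_comp x')
  right_inv f := by
    refine ss_ext fun k (y : GS P _ k.unop) => ?_
    exact congrArg (fun x' => f.app k (show GS P K k.unop from ⟨y.c, y.h, x'⟩)) (sset_id K y.x)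

lemma adj_left {P : F.Sub} {K L E : SSet.{0}} (i : K ⟶ L) (a : L ⟶ R P E) :
    adj (i ≫ a) = G.map (fun _ h => h) i ≫ adj a := rfl

lemma adj_right {P : F.Sub} {K E B : SSet.{0}} (a : K ⟶ R P E) (p : E ⟶ B) :
    adj (a ≫ R.map P p) = adj a ≫ p := rfl

lemma adj_res {P P' : F.Sub} (hP : ∀ {k : SimplexCategory} (c : F.C k), P.mem c → P'.mem c)
    {K E : SSet.{0}} (a : K ⟶ R P' E) :
    adj (a ≫ R.res hP E) = G.map hP (𝟙 K) ≫ adj a := rfl

end Helper53FL
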